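import Pool.Agent.TH630.Tor.Five
import Pool.Agent.TH630.Tor.Surj

/-!
# The approximation of `L²`-torsion along normal chains fails

`G = Heis × ℤ`, the product of the discrete Heisenberg group and an infinite cyclic group (a
torsion-free nilpotent group). The normal chain is `G ⊇ Γ_1 × 1 ⊇ Γ_2 × 1 ⊇ ⋯`, with a chain of
normal subgroups `Γ_i` of finite index of the Heisenberg group. The presentation is

`⟨u, t, y, s | [s, u], [s, t], y (t y¹⁰ t⁻¹) (u t y⁻¹⁰ t⁻¹ u⁻¹)⟩`,

and `u, t, s` go to the standard generators of `Heis` and `ℤ`, `y` goes to the identity.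

Let `X` be the presentation complex, let `W` be a `5`-dimensional orientable handlebody with handles
of index at most two which is a thickening of `X`, and let `M` be the double of `W`, i.e. the
boundary of `W × [0,1]`. `M` is a closed orientable `5`-manifold with `π_1 M = π_1 X`. It has a handle
decomposition with `1, 4, 3, 3, 4, 1` handles; because `M` retracts to `W` by the folding map, the
cellular chain complex of its `G`-cover is the sum of the chain complex of the `G`-cover of `X`
(whose boundary matrices are given by the generators and by Fox derivatives) and of the dual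
complex. This is the complex `Pres.fiveManifold`.

At the level `i` the torsion is `-2 log |det A_i| / |Heis / Γ_i|`, with the images `A_i` of
`1 + 10 t - 10 u t` over the finite quotients of the Heisenberg group, for which there is no limit.
-/

namespace Pool.Agent.Results.MP_fa412c_gt.FiveManifold

open Pool.Agent.TH630.Tor Pool.Agent.Helper993 Pool.Agent.Helper993.HeisDet Filter Topology

theorem result : ∃ (P : Pres (Heis ℤ × Multiplicative ℤ))
    (N : ℕ → Subgroup (Heis ℤ × Multiplicative ℤ)) (_ : ∀ i, (N i).Normal),
    N 0 = ⊤ ∧ Antitone N ∧ ⨅ i, N i = ⊥ ∧ Function.Surjective P.φ ∧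
    P.fiveManifold.DetL2Acyclic ∧
    (∀ i, 1 ≤ i → (P.fiveManifold.quot (N i)).DetL2Acyclic) ∧
    (∀ i n, 0 < FK.fkDet ((P.fiveManifold.quot (N i)).laplacian n)) ∧
    ∀ L : ℝ, ¬ Tendsto (fun i => (P.fiveManifold.quot (N i)).l2torsion) atTop (𝓝 L) :=
  ⟨pres4, chainZ, chainZ_normal, chainZ_zero, chainZ_anti, chainZ_inf, φ4_surjective,
    acyclic_pres4, fun i hi => (level_pres4 i hi).1, pos_pres4, no_limit_pres4⟩

end Pool.Agent.Results.MP_fa412c_gt.FiveManifold
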